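import Pool.Agent.X143.KH.Main

/-!
# Random products of 2 and 3 are almost surely not Khintchin sequences

The random walk `#{i < n : letter 2} - p n` almost surely has, at some arbitrarily large scales,
arbitrarily many long plateaux at separated heights. By transference to the action of the
multiplications by `2` and `3` the maximal inequality fails, and a bounded function with
non-convergent averages results.
-/

namespace Pool.Agent.Results.MP_47485c_an.NotKhintchin

open Pool.Agent.X143.KH MeasureTheory ProbabilityTheory

/-- Let `X 0, X 1, ...` be independent with `P(X i = 2) = p` and `P(X i = 3) = 1 - p`, where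
`0 < p < 1`. Almost surely, for every `q ≥ 1` (also `q = ∞`), the sequence of the products
`X 0 * ... * X (n - 1)`, `n ≥ 1`, is not an `L^q`-Khintchin sequence. -/
theorem result {Ω : Type*} [MeasurableSpace Ω] {P : Measure Ω} [IsProbabilityMeasure P]
    {X : ℕ → Ω → ℕ} (hX : ∀ i, Measurable (X i)) (hXi : iIndepFun X P) {p : ℝ} (hp0 : 0 < p)
    (hp1 : p < 1) (h2 : ∀ i, P.real {ω | X i ω = 2} = p)
    (h3 : ∀ i, P.real {ω | X i ω = 3} = 1 - p) :
    ∀ᵐ ω ∂P, ∀ q : ENNReal, 1 ≤ q →
      ¬ Khintchin q (fun n => ∏ i ∈ Finset.range n, X i ω) := by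
  filter_upwards [main_not hX hXi hp0 hp1 h2 h3] with ω hω q _
  exact hω q

end Pool.Agent.Results.MP_47485c_an.NotKhintchin
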